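import Mathlib

set_option autoImplicit false

namespace Pool.Agent.Results.MP_dd6e79_al.NoOscillation

open Filter Pointwise

universe u

/-- The elements that are products of at least one and at most n elements of X. -/
def ball {S : Type*} [Semigroup S] (X : Set S) (n : ℕ) : Set S :=
  {s | ∃ (a : S) (l : List S), a ∈ X ∧ (∀ b ∈ l, b ∈ X) ∧ l.length + 1 ≤ n ∧ l.foldl (· * ·) a = s}

/-- The growth function with respect to X. -/
noncomputable def growth {S : Type*} [Semigroup S] (X : Set S) (n : ℕ) : ℕ := (ball X n).ncard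

/-- S is given by finitely many generators and finitely many defining relations. -/
def FinPres (S : Type u) [Semigroup S] : Prop :=
  ∃ (k : ℕ) (π : FreeSemigroup (Fin k) →ₙ* S)
    (R : Finset (FreeSemigroup (Fin k) × FreeSemigroup (Fin k))),
    Function.Surjective π ∧ Con.ker π = conGen fun a b => (a, b) ∈ R

/-- The domination preorder on functions. -/
def Dom (f g : ℕ → ℕ) : Prop := ∃ C : ℕ, 1 ≤ C ∧ ∀ n, f n ≤ C * g (C * n)

/-- Equivalence of functions. -/
def Equi (f g : ℕ → ℕ) : Prop := Dom f g ∧ Dom g f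

section

variable {S : Type*} [Semigroup S] {X : Set S}

theorem ball_mono {m n : ℕ} (h : m ≤ n) : ball X m ⊆ ball X n :=
  fun _ ⟨a, l, h1, h2, h3, h4⟩ => ⟨a, l, h1, h2, h3.trans h, h4⟩

theorem ball_add (m n : ℕ) : ball X (m + 1 + n) ⊆ ball X (m + 1) ∪ ball X (m + 1) * ball X n := by
  rintro _ ⟨a, l, h1, h2, h3, rfl⟩
  rw [← List.take_append_drop m l, List.foldl_append]
  have e : (l.take m).foldl (· * ·) a ∈ ball X (m + 1) :=
    ⟨a, _, h1, fun b hb => h2 b (List.mem_of_mem_take hb), by simp, rfl⟩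
  rcases hd : l.drop m with _ | ⟨b, t⟩
  · exact Or.inl e
  · have e2 : ∀ c ∈ b :: t, c ∈ X := fun c hc => h2 c (List.mem_of_mem_drop (hd ▸ hc))
    have e3 := congrArg List.length hd
    simp only [List.length_drop, List.length_cons] at e3
    refine Or.inr ⟨_, e, t.foldl (· * ·) b, ⟨b, t, e2 b (by simp), fun c hc => e2 c (by simp [hc]),
      by omega, rfl⟩, ?_⟩
    exact (List.foldl_assoc (ha := ⟨mul_assoc⟩)).symm

theorem ball_zero : ball X 0 = ∅ := Set.eq_empty_of_forall_notMem fun _ ⟨_, _, _, _, h, _⟩ => by omega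

theorem ball_finite (hX : X.Finite) (n : ℕ) : (ball X n).Finite := by
  have h1 : (ball X (0 + 1)).Finite := hX.subset (by
    rintro _ ⟨a, l, h1, -, h3, rfl⟩
    rw [List.length_eq_zero_iff.1 (by omega : l.length = 0)]
    exact h1)
  induction n with
  | zero => rw [ball_zero]; exact Set.finite_empty
  | succ n ih => rw [add_comm]; exact (h1.union (h1.mul ih)).subset (ball_add 0 n)

theorem growth_add (hX : X.Finite) (m n : ℕ) :
    growth X (m + n) + 1 ≤ (growth X m + 1) * (growth X n + 1) := by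
  rcases m with _ | m
  · simp [growth, ball_zero]
  have h1 := ball_finite hX (m + 1)
  have h2 := ball_finite hX n
  have := (Set.ncard_le_ncard (ball_add (X := X) m n) (h1.union (h1.mul h2))).trans
    ((Set.ncard_union_le _ _).trans (Nat.add_le_add_left (k := _) (n := _)
      (m := (ball X (m + 1) ×ˢ ball X n).ncard) (by
        rw [← Set.image_mul_prod]; exact Set.ncard_image_le (h1.prod h2)) ))
  rw [Set.ncard_prod] at this
  unfold growth
  nlinarith

theorem ball_image {Q : Type*} [Semigroup Q] (j : Q →ₙ* S) (Y : Set Q) (n : ℕ) :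
    ball (j '' Y) n = j '' ball Y n := by
  have hf : ∀ (l : List Q) (a : Q), (l.map j).foldl (· * ·) (j a) = j (l.foldl (· * ·) a) :=
    fun l => by
      induction l with
      | nil => intro a; rfl
      | cons b t ih => intro a; rw [List.map_cons, List.foldl_cons, ← map_mul, ih]; rfl
  ext s
  constructor
  · rintro ⟨_, l, ⟨a, h1, rfl⟩, h2, h3, rfl⟩
    obtain ⟨l', e, h4⟩ : ∃ l' : List Q, l'.map j = l ∧ ∀ b ∈ l', b ∈ Y := by
      clear h3
      induction l with
      | nil => exact ⟨[], rfl, by simp⟩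
      | cons b t ih =>
        obtain ⟨l', e, h4⟩ := ih fun c hc => h2 c (by simp [hc])
        obtain ⟨c, hc, rfl⟩ := h2 b (by simp)
        exact ⟨c :: l', by simp [e], by simpa [hc] using h4⟩
    subst e
    exact ⟨_, ⟨a, l', h1, h4, by simpa using h3, rfl⟩, (hf l' a).symm⟩
  · rintro ⟨_, ⟨a, l, h1, h2, h3, rfl⟩, rfl⟩
    refine ⟨j a, l.map j, ⟨a, h1, rfl⟩, ?_, by simpa using h3, hf l a⟩
    simp only [List.mem_map]
    rintro _ ⟨b, hb, rfl⟩
    exact ⟨b, h2 b hb, rfl⟩

end

theorem big (C d : ℕ) : ∀ᶠ n in atTop, C * n ^ d ≤ 2 ^ n := by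
  have h := (tendsto_pow_const_div_const_pow_of_one_lt d (one_lt_two (α := ℝ))).const_mul (C : ℝ)
  rw [mul_zero] at h
  filter_upwards [h.eventually (gt_mem_nhds one_pos)] with n hn
  rw [← mul_div_assoc, div_lt_one (by positivity)] at hn
  exact_mod_cast hn.le

theorem dich (g : ℕ → ℕ) (h0 : ∀ n, 1 ≤ g n) (h1 : Monotone g) (h2 : ∀ m n, g (m + n) ≤ g m * g n) :
    (∀ᶠ n in atTop, n ^ 3 < g n) ∨ ∀ q, ∀ᶠ n in atTop, g n ^ q ≤ 4 ^ n := by
  refine or_iff_not_imp_right.2 fun h => ?_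
  push Not at h
  obtain ⟨q, hq⟩ := h
  have h3 : ∀ n, 1 ≤ n → 2 ^ n < g n ^ q := fun n hn => by
    by_contra hc
    push Not at hc
    have h4 : ∀ a, g ((a + 1) * n) ≤ g n ^ (a + 1) := fun a => by
      induction a with
      | zero => simp
      | succ a ih => rw [add_mul, one_mul, pow_succ]; exact (h2 _ _).trans (Nat.mul_le_mul_right _ ih)
    obtain ⟨N, hN, hN'⟩ := (hq.and_eventually (eventually_ge_atTop n)).exists
    have h5 : N < (N / n + 1) * n := by rw [mul_comm]; exact Nat.lt_mul_div_succ N hn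
    have h6 : (N / n + 1) * n ≤ 2 * N := by nlinarith [Nat.div_mul_le_self N n]
    refine hN.not_ge ((Nat.pow_le_pow_left ((h1 h5.le).trans (h4 _)) q).trans ?_)
    rw [← pow_mul, mul_comm, pow_mul]
    refine (Nat.pow_le_pow_left hc _).trans ?_
    rw [← pow_mul, mul_comm, show 4 = 2 ^ 2 by norm_num, ← pow_mul]
    exact Nat.pow_le_pow_right two_pos h6
  filter_upwards [big 1 (3 * q), eventually_ge_atTop 1] with n a b
  rw [one_mul, pow_mul] at a
  exact lt_of_pow_lt_pow_left₀ q (Nat.zero_le _) (a.trans_lt (h3 n b))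

theorem diag (g : ℕ → ℕ → ℕ) (h0 : ∀ i n, 1 ≤ g i n) (h1 : ∀ i, Monotone (g i)) :
    ∃ f : ℕ → ℕ, StrictMono f ∧ Dom f (2 ^ ·) ∧ ¬ Dom (2 ^ ·) f ∧
      ∀ i, (∀ q, ∀ᶠ n in atTop, g i n ^ q ≤ 4 ^ n) → ∀ᶠ n in atTop, g i n ≤ f n := by
  classical
  let T : ℕ → ℕ → Prop := fun i N => (∀ q, ∀ᶠ n in atTop, g i n ^ q ≤ 4 ^ n) ∧
    ∀ M, N ≤ M → g i M ^ (i + 1) ≤ 4 ^ M
  let s : ℕ → ℕ := fun N => ((Finset.range (N + 1)).filter (T · N)).sup (g · N)
  have s1 : ∀ i N, i ≤ N → T i N → g i N ≤ s N := fun i N a b =>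
    Finset.le_sup (f := (g · N)) (Finset.mem_filter.2 ⟨Finset.mem_range.2 (by omega), b⟩)
  have s2 : ∀ N q, 1 ≤ q → (∀ i, T i N → g i N ^ q ≤ 4 ^ N) → s N ^ q ≤ 4 ^ N := fun N q hq h => by
    refine Finset.sup_induction (p := fun x => x ^ q ≤ 4 ^ N) (by simp [zero_pow (by omega : q ≠ 0)])
      (fun a ha b hb => ?_) fun i hi => h i (Finset.mem_filter.1 hi).2
    rcases le_total a b with l | l
    · rwa [sup_eq_right.2 l]
    · rwa [sup_eq_left.2 l]
  refine ⟨fun N => N + s N, strictMono_nat_of_lt_succ fun N => ?_, ⟨2, one_le_two, fun N => ?_⟩,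
    ?_, fun i hi => ?_⟩
  · have : s N ≤ s (N + 1) := Finset.sup_le fun i hi => by
      obtain ⟨a, b⟩ := Finset.mem_filter.1 hi
      exact (h1 i N.le_succ).trans (s1 i _ (by have := Finset.mem_range.1 a; omega)
        ⟨b.1, fun M hM => b.2 M (by omega)⟩)
    omega
  · have a := s2 N 1 le_rfl fun i hi =>
      (Nat.pow_le_pow_right (h0 i N) (by omega)).trans (hi.2 N le_rfl)
    have b : N < 4 ^ N := Nat.lt_pow_self (by norm_num)
    simp only [pow_mul, show 2 ^ 2 = 4 by norm_num]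
    rw [pow_one] at a
    omega
  · rintro ⟨C, hC, h⟩
    have a : ∀ᶠ N in atTop, s N ^ (4 * C) ≤ 4 ^ N := by
      have : ∀ᶠ N in atTop, ∀ i ∈ Finset.range (4 * C), T i N → g i N ^ (4 * C) ≤ 4 ^ N :=
        (eventually_all_finset _).2 fun i _ => by
          by_cases e : ∀ q, ∀ᶠ n in atTop, g i n ^ q ≤ 4 ^ n
          · exact (e _).mono fun N a _ => a
          · exact Eventually.of_forall fun N a => absurd a.1 e
      filter_upwards [this] with N hN
      refine s2 N _ (by omega) fun i hi => ?_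
      by_cases e : i < 4 * C
      · exact hN i (Finset.mem_range.2 e) hi
      · exact (Nat.pow_le_pow_right (h0 i N) (by omega)).trans (hi.2 N le_rfl)
    have b := (tendsto_id.const_mul_atTop' (by omega : 0 < C)).eventually a
    obtain ⟨n, a1, a2, a3⟩ := (b.and ((big (C ^ 2) 2).and (eventually_gt_atTop (4 * C ^ 2)))).exists
    have a4 : s (C * n) ^ 2 ≤ 2 ^ n := by
      refine le_of_pow_le_pow_left₀ (by omega : 2 * C ≠ 0) (Nat.zero_le _) ?_
      rw [← pow_mul, ← pow_mul, ← mul_assoc, mul_comm n, mul_assoc 2 C n, pow_mul 2 2]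
      exact a1
    have a5 := h n
    have a6 : n < 2 ^ n := Nat.lt_pow_self (by norm_num)
    simp only at a5
    clear a1 h a b
    generalize 2 ^ n = x at *
    generalize s (C * n) = y at *
    have a7 : (C * n + y) ^ 2 ≤ 4 * x := by
      rw [← mul_pow] at a2
      generalize C * n = z at *
      zify at *
      nlinarith [sq_nonneg ((z : ℤ) - y)]
    have a8 : x ^ 2 ≤ C ^ 2 * (4 * x) :=
      (Nat.pow_le_pow_left a5 2).trans (by rw [mul_pow]; exact Nat.mul_le_mul_left _ a7)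
    nlinarith
  · obtain ⟨N, hN⟩ := eventually_atTop.1 (hi (i + 1))
    filter_upwards [eventually_ge_atTop N, eventually_ge_atTop i] with n a b
    exact (s1 i n b ⟨hi, fun M hM => hN M (a.trans hM)⟩).trans (Nat.le_add_left _ _)

instance (k : ℕ) : Countable (FreeSemigroup (Fin k)) :=
  Function.Injective.countable (f := fun w => (w.head, w.tail)) fun _ _ h =>
    FreeSemigroup.ext (congrArg Prod.fst h) (congrArg Prod.snd h)

abbrev D : Type := Σ k : ℕ, Finset (FreeSemigroup (Fin k) × FreeSemigroup (Fin k)) ×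
  Finset (FreeSemigroup (Fin k))

noncomputable def G (d : D) (n : ℕ) : ℕ :=
  growth ((fun w : FreeSemigroup (Fin d.1) => (w : (conGen fun a b => (a, b) ∈ d.2.1).Quotient)) ''
    (d.2.2 : Set (FreeSemigroup (Fin d.1)))) n + 1

theorem exists_D {S : Type u} [Semigroup S] (hS : FinPres S) (X : Set S) (hX : X.Finite) :
    ∃ d : D, ∀ n, G d n = growth X n + 1 := by
  obtain ⟨k, π, R, h1, h2⟩ := hS
  obtain ⟨Y, hY⟩ : ∃ Y : Finset (FreeSemigroup (Fin k)), π '' Y = X :=
    ⟨(hX.image h1.hasRightInverse.choose).toFinset, by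
      rw [Set.Finite.coe_toFinset, Set.image_image]
      simp [h1.hasRightInverse.choose_spec _]⟩
  let ρ : (conGen fun a b => (a, b) ∈ R).Quotient →ₙ* S :=
    { toFun := fun q => Con.liftOn q π fun a b h => by rwa [← h2] at h
      map_mul' := fun a b => Con.induction_on₂ a b fun a b => map_mul π a b }
  have h3 : Function.Injective ρ := fun a b => Con.induction_on₂ a b fun a b h =>
    (Con.eq _).2 (by rw [← h2]; exact h)
  refine ⟨⟨k, R, Y⟩, fun n => ?_⟩
  rw [G, growth, ← Set.ncard_image_of_injective _ h3, ← ball_image, Set.image_image, ← hY]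
  rfl

/-- There are admissible functions between which no finitely presented semigroup oscillates. -/
theorem result : ∃ f₁ f₂ : ℕ → ℕ, StrictMono f₁ ∧ StrictMono f₂ ∧
    Dom (· ^ 2) f₁ ∧ Dom f₂ (2 ^ ·) ∧ ¬ Equi f₁ (· ^ 2) ∧ ¬ Equi f₂ (2 ^ ·) ∧
    ∀ (S : Type u) [Semigroup S], FinPres S → ∀ X : Set S, X.Finite →
      Subsemigroup.closure X = ⊤ →
        (∀ᶠ n in atTop, f₁ n ≤ growth X n) ∨ ∀ᶠ n in atTop, growth X n ≤ f₂ n := by
  obtain ⟨e, he⟩ := exists_surjective_nat D
  have m : ∀ d, Monotone (G d) := fun d a b h => Nat.succ_le_succ (Set.ncard_le_ncard (ball_mono h)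
    (ball_finite ((Finset.finite_toSet _).image _) _))
  obtain ⟨f, h1, h2, h3, h4⟩ := diag (fun i => G (e i)) (fun _ _ => Nat.le_add_left _ _)
    fun i => m _
  refine ⟨(· ^ 3), f, fun a b h => Nat.pow_lt_pow_left h (by norm_num), h1,
    ⟨1, le_rfl, fun n => ?_⟩, h2, ?_, fun h => h3 h.2, fun S _ hS X hX _ => ?_⟩
  · simp only [one_mul]
    rcases n with _ | n
    · rfl
    · exact Nat.pow_le_pow_right n.succ_pos (by norm_num)
  · rintro ⟨⟨C, hC, h⟩, -⟩
    have := h (C ^ 3 + 1)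
    simp only at this
    obtain ⟨n, hn⟩ : ∃ n, n = C ^ 3 + 1 := ⟨_, rfl⟩
    rw [← hn] at this
    have e1 : C * (C * n) ^ 2 = C ^ 3 * n ^ 2 := by ring
    have e2 : n ^ 3 = C ^ 3 * n ^ 2 + n ^ 2 := by rw [pow_succ' n 2]; nth_rw 1 [hn]; ring
    have e3 : 0 < n ^ 2 := by rw [hn]; positivity
    omega
  · obtain ⟨d, hd⟩ := exists_D hS X hX
    obtain ⟨i, rfl⟩ := he d
    refine (dich (G (e i)) (fun _ => Nat.le_add_left _ _) (m _) fun a b => by
      rw [hd, hd, hd]; exact growth_add hX a b).imp (fun h => h.mono fun n hn => ?_)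
      fun h => (h4 i h).mono fun n hn => ?_
    all_goals
      rw [hd] at hn
      first | exact Nat.lt_succ_iff.1 hn | omega

end Pool.Agent.Results.MP_dd6e79_al.NoOscillation
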